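import Pool.Agent.helper93.TV.Spec1

namespace Pool.Agent.helper93.TV

open BigOperators Finset Matrix

theorem S2_comm {V : Type} [Fintype V] (T : V → V → V → V → ℂ) :
    ∑ a, ∑ b, ∑ c, ∑ d, T a b c d = ∑ c, ∑ d, ∑ a, ∑ b, T a b c d := by
  calc ∑ a, ∑ b, ∑ c, ∑ d, T a b c d
      = ∑ a, ∑ c, ∑ b, ∑ d, T a b c d := Finset.sum_congr rfl fun a _ => Finset.sum_comm
    _ = ∑ c, ∑ a, ∑ b, ∑ d, T a b c d := Finset.sum_comm
    _ = ∑ c, ∑ a, ∑ d, ∑ b, T a b c d :=
        Finset.sum_congr rfl fun c _ => Finset.sum_congr rfl fun a _ => Finset.sum_comm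
    _ = ∑ c, ∑ d, ∑ a, ∑ b, T a b c d := Finset.sum_congr rfl fun c _ => Finset.sum_comm

theorem S2 : S2_stmt := by
  intro hU2 I V _ _ _ _ D F hF α κ₁ δ₀ κ₀
  have U2 := hU2 I V D F hF
  have supp : ∀ l e e' l', F l e e' l' ≠ 0 → D.cp l e e' l' :=
    fun l e e' l' h => (hF.uf.conn.supp l e e' l' h).1
  have main : ∑ γ, star (F α γ κ₁ δ₀) * D.Bm F γ κ₀ = ∑ σ, F δ₀ κ₀ σ α * D.Bm F κ₁ σ := by
    by_cases h1 : D.s2 α = D.s1 κ₁
    swap
    · rw [Finset.sum_eq_zero, Finset.sum_eq_zero]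
      · intro σ _
        by_contra hne
        have a1 := supp _ _ _ _ (left_ne_zero_of_mul hne)
        have a2 := supp _ _ _ _ (right_ne_zero_of_mul hne)
        obtain ⟨_, b2, _, _, _, _⟩ := a1
        obtain ⟨_, _, _, _, _, c6⟩ := a2
        rw [D.t_rho] at c6
        exact h1 (b2.symm.trans c6)
      · intro γ _
        have : F α γ κ₁ δ₀ = 0 := by
          by_contra hne
          obtain ⟨_, _, _, b4, _, _⟩ := supp _ _ _ _ hne
          exact h1 b4
        rw [this, star_zero, zero_mul]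
    by_cases h2 : D.t κ₁ = D.s2 δ₀
    swap
    · rw [Finset.sum_eq_zero, Finset.sum_eq_zero]
      · intro σ _
        by_contra hne
        have a1 := supp _ _ _ _ (left_ne_zero_of_mul hne)
        have a2 := supp _ _ _ _ (right_ne_zero_of_mul hne)
        obtain ⟨_, _, _, b4, _, _⟩ := a1
        obtain ⟨c1, _, _, _, _, _⟩ := a2
        exact h2 (c1.trans b4.symm)
      · intro γ _
        have : F α γ κ₁ δ₀ = 0 := by
          by_contra hne
          obtain ⟨_, b2, _, _, _, _⟩ := supp _ _ _ _ hne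
          exact h2 b2
        rw [this, star_zero, zero_mul]
    have hA : ∑ α', ∑ γ, star (F α' γ κ₁ δ₀) *
        (∑ ν, F γ κ₀ (D.eta (D.s2 κ₁)) ν * F α' ν (D.rho (D.s2 α)) α)
        = ∑ γ, star (F α γ κ₁ δ₀) * D.Bm F γ κ₀ := by
      have hν : ∀ α' γ, ∑ ν, F γ κ₀ (D.eta (D.s2 κ₁)) ν * F α' ν (D.rho (D.s2 α)) α
          = F γ κ₀ (D.eta (D.s2 κ₁)) (D.rho (D.s1 γ)) * F α' (D.rho (D.s1 γ)) (D.rho (D.s2 α)) α := by
        intro α' γ
        refine Finset.sum_eq_single (D.rho (D.s1 γ)) ?_ (fun h => absurd (Finset.mem_univ _) h)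
        intro ν _ hν
        by_contra hne
        obtain ⟨_, b2, b3, _, _, _⟩ := supp _ _ _ _ (left_ne_zero_of_mul hne)
        rw [D.t_eta] at b2
        apply hν
        rw [b3]
        exact D.rho_unique ν b2.symm
      simp only [hν]
      rw [Finset.sum_eq_single α]
      · refine Finset.sum_congr rfl fun γ _ => ?_
        by_cases hz : F α γ κ₁ δ₀ = 0
        · rw [hz, star_zero, zero_mul, zero_mul]
        · obtain ⟨b1, _, _, _, b5, _⟩ := supp _ _ _ _ hz
          have hu : F α (D.rho (D.s1 γ)) (D.rho (D.s2 α)) α = 1 := by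
            rw [← b1, U2, if_pos rfl]
          rw [hu, mul_one]
          show _ = star (F α γ κ₁ δ₀) * F γ κ₀ (D.eta (D.s2 γ)) (D.rho (D.s1 γ))
          rw [b5]
      · intro α' _ hα
        refine Finset.sum_eq_zero fun γ _ => ?_
        have hz : F α' (D.rho (D.s1 γ)) (D.rho (D.s2 α)) α = 0 := by
          by_contra hne
          obtain ⟨b1, _, _, b4, _, _⟩ := supp _ _ _ _ hne
          rw [D.s1_rho] at b1 b4
          apply hne
          rw [← b1, ← b4, U2, if_neg hα]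
        rw [hz, mul_zero, mul_zero]
      · intro h
        exact absurd (Finset.mem_univ _) h
    have hB : ∑ α', ∑ γ, star (F α' γ κ₁ δ₀) *
        (∑ ν, F γ κ₀ (D.eta (D.s2 κ₁)) ν * F α' ν (D.rho (D.s2 α)) α)
        = ∑ σ, F δ₀ κ₀ σ α * D.Bm F κ₁ σ := by
      have e1 : ∀ α' γ, star (F α' γ κ₁ δ₀) *
          (∑ ν, F γ κ₀ (D.eta (D.s2 κ₁)) ν * F α' ν (D.rho (D.s2 α)) α)
          = ∑ μ, ∑ ρ, (star (F α' γ κ₁ δ₀) * F α' γ μ ρ) *
            (∑ σ, F ρ κ₀ σ α * F μ σ (D.eta (D.s2 κ₁)) (D.rho (D.s2 α))) := by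
        intro α' γ
        rw [hF.uf.pent α' γ κ₀ (D.eta (D.s2 κ₁)) (D.rho (D.s2 α)) α, Finset.mul_sum]
        refine Finset.sum_congr rfl fun μ _ => ?_
        rw [Finset.mul_sum]
        refine Finset.sum_congr rfl fun ρ _ => ?_
        rw [Finset.mul_sum, Finset.mul_sum]
        exact Finset.sum_congr rfl fun σ _ => by ring
      simp only [e1]
      rw [S2_comm]
      have e2 : ∀ μ ρ, ∑ α', ∑ γ, (star (F α' γ κ₁ δ₀) * F α' γ μ ρ) *
            (∑ σ, F ρ κ₀ σ α * F μ σ (D.eta (D.s2 κ₁)) (D.rho (D.s2 α)))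
          = (if κ₁ = μ ∧ δ₀ = ρ then 1 else 0) *
            (∑ σ, F ρ κ₀ σ α * F μ σ (D.eta (D.s2 κ₁)) (D.rho (D.s2 α))) := by
        intro μ ρ
        rw [← hF.uf.conn.col κ₁ δ₀ μ ρ h2 (Finset.mem_univ _) (Finset.mem_univ _), Finset.sum_mul]
        exact Finset.sum_congr rfl fun α' _ => by rw [Finset.sum_mul]
      simp only [e2]
      rw [Finset.sum_eq_single κ₁, Finset.sum_eq_single δ₀]
      · rw [if_pos ⟨rfl, rfl⟩, one_mul]
        refine Finset.sum_congr rfl fun σ _ => ?_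
        rw [h1]
        rfl
      · intro ρ _ hρ
        rw [if_neg (fun h => hρ h.2.symm), zero_mul]
      · intro h
        exact absurd (Finset.mem_univ _) h
      · intro μ _ hμ
        refine Finset.sum_eq_zero fun ρ _ => ?_
        rw [if_neg (fun h => hμ h.1.symm), zero_mul]
      · intro h
        exact absurd (Finset.mem_univ _) h
    rw [← hA, hB]
  have h3 := congrArg star main
  rw [star_sum, star_sum] at h3
  simp only [star_mul', star_star] at h3
  exact h3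

end Pool.Agent.helper93.TV
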